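import Pool.Agent.Run7.h956.LS.Shl
import Pool.Agent.Run7.h219.LS.Stm

/-!
Project LS, piece D1: from a solution with a good shell to data on the torus.
-/

set_option autoImplicit false

open MeasureTheory Set Metric Filter Topology
open scoped ContDiff ENNReal

namespace Run7.h956.LS

open H459R3.NS W221.NS Run7.h219.SL Run7.h219.LS
open Pool.Agent.W349.MF (pd_congr' pd_congr_ev' cutoff pd_bd cut_smooth_on cont_pd)
open Pool.Agent.TH305.DR (SV)

/-! ### Localization -/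

lemma pz_cut {ζ f : V → ℝ} {R : ℝ} (h1 : ∀ y, ‖y - c0‖ < R → ζ y = 1) (hR : R ≤ 1 / 2) {x : V}
    (hx : Nn x < R) : pz (fun y => ζ y • f y) =ᶠ[𝓝 x] fun y => f (y - fl3 x) := by
  have h2 : Continuous fun y : V => ‖y - fl3 x - c0‖ := by fun_prop
  have h3 : ‖x - fl3 x - c0‖ < R := hx
  filter_upwards [pz_near (f := fun y => ζ y • f y) (lt_of_lt_of_le hx hR),
    h2.continuousAt.eventually (gt_mem_nhds h3)] with y hy hy2
  rw [hy, h1 _ hy2, one_smul]

lemma pd_loc {g f : V → ℝ} {x a : V} (h : g =ᶠ[𝓝 x] fun y => f (y - a)) (j : Fin 3) :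
    pd j g =ᶠ[𝓝 x] fun y => pd j f (y - a) :=
  (pd_congr_ev' h j).trans (Eventually.of_forall fun y => pd_shift f a j y)

lemma pd_loc_at {g f : V → ℝ} {x a : V} (h : g =ᶠ[𝓝 x] fun y => f (y - a)) (j : Fin 3) :
    pd j g x = pd j f (x - a) := (pd_loc h j).self_of_nhds

lemma pd_sub_const (f : V → ℝ) (b : ℝ) (j : Fin 3) (x : V) :
    pd j (fun y => f y - b) x = pd j f x := by
  unfold pd
  rw [fderiv_sub_const]

/-! ### The setting -/

/-- The clamped time. -/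
noncomputable def ct (a s t : ℝ) : ℝ := a + max 0 (min t s)

lemma ct_cont (a s : ℝ) : Continuous (ct a s) := by
  unfold ct
  fun_prop

lemma ct_mem {a s : ℝ} (hs : 0 ≤ s) (t : ℝ) : ct a s t ∈ Icc a (a + s) := by
  unfold ct
  refine ⟨by linarith [le_max_left 0 (min t s)], ?_⟩
  have : max 0 (min t s) ≤ s := max_le hs (min_le_right _ _)
  linarith

lemma ct_eq {a s t : ℝ} (ht : t ∈ Icc 0 s) : ct a s t = a + t := by
  unfold ct
  rw [min_eq_left ht.2, max_eq_right ht.1]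

/-- The data of the construction. -/
structure Dt (T E : ℝ) (Ω : Set V) (u : ℝ → V → V) (p : ℝ → V → ℝ) (ρ κ a s m : ℝ) (ζ : V → ℝ) :
    Prop where
  sol : OSol 1 T E Ω u p
  sub : ∀ y, ‖y - c0‖ ≤ 1 / 4 → y ∈ Ω
  lo : 1 / 8 < ρ - κ
  hi : ρ + κ < 1 / 4
  κ0 : 0 < κ
  s0 : 0 < s
  s1 : s < 1
  a0 : 0 < a
  aT : a + s < T
  m0 : 0 ≤ m
  b0 : ∀ t ∈ Icc a (a + s), ∀ y, |‖y - c0‖ - ρ| ≤ κ → ∀ i, |u t y i| ≤ m
  b1 : ∀ t ∈ Icc a (a + s), ∀ y, |‖y - c0‖ - ρ| ≤ κ → ∀ i j, |pd j (fun z => u t z i) y| ≤ m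
  b2 : ∀ t ∈ Icc a (a + s), ∀ y, |‖y - c0‖ - ρ| ≤ κ → ∀ i j,
    |pd j (pd j (fun z => u t z i)) y| ≤ m
  sm : ContDiff ℝ ∞ ζ
  ts : ∀ y, 1 / 4 ≤ ‖y - c0‖ → y ∉ tsupport ζ
  rg : ∀ y, 0 ≤ ζ y ∧ ζ y ≤ 1
  on : ∀ y, ‖y - c0‖ < ρ + κ → ζ y = 1

/-- The base point. -/
noncomputable def xb (ρ : ℝ) : V := fun _ => 1 / 2 + ρ

lemma xb_norm {ρ : ℝ} (h : 0 ≤ ρ) : ‖xb ρ - c0‖ = ρ := by
  have e : xb ρ - c0 = fun _ => ρ := by
    funext i
    show 1 / 2 + ρ - 1 / 2 = ρ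
    ring
  rw [e]
  refine le_antisymm ((pi_norm_le_iff_of_nonneg h).2 fun j => ?_) ?_
  · rw [Real.norm_eq_abs, abs_of_nonneg h]
  · refine le_trans ?_ (norm_le_pi_norm (fun _ : Fin 3 => ρ) 0)
    exact le_abs_self ρ

/-- The velocity on the torus. -/
noncomputable def UU (u : ℝ → V → V) (a s : ℝ) (ζ : V → ℝ) (i : Fin 3) (t : ℝ) : V → ℝ :=
  pz (fun y => ζ y • u (ct a s t) y i)

/-- The pressure on the torus. -/
noncomputable def QQ (p : ℝ → V → ℝ) (ρ a s : ℝ) (ζ : V → ℝ) (t : ℝ) : V → ℝ :=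
  pz (fun y => ζ y • (p (ct a s t) y - p (ct a s t) (xb ρ)))

/-- The periodic set. -/
def ZZ (R : ℝ) : Set V := {x | Nn x < R}

lemma ZZ_open (R : ℝ) : IsOpen (ZZ R) := isOpen_lt Nn_cont continuous_const

namespace Dt

variable {T E : ℝ} {Ω : Set V} {u : ℝ → V → V} {p : ℝ → V → ℝ} {ρ κ a s m : ℝ} {ζ : V → ℝ}

lemma tsub (h : Dt T E Ω u p ρ κ a s m ζ) : tsupport ζ ⊆ Ω := by
  intro y hy
  by_contra hcon
  refine h.ts y ?_ hy
  by_contra h2
  exact hcon (h.sub y (by linarith [lt_of_not_ge h2]))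

lemma ρ0 (h : Dt T E Ω u p ρ κ a s m ζ) : 0 < ρ := by linarith [h.lo, h.κ0]

lemma tm (h : Dt T E Ω u p ρ κ a s m ζ) {t : ℝ} (ht : t ∈ Icc a (a + s)) : t ∈ Ioo 0 T :=
  ⟨by linarith [h.a0, ht.1], by linarith [h.aT, ht.2]⟩

lemma ctT (h : Dt T E Ω u p ρ κ a s m ζ) (t : ℝ) : ct a s t ∈ Ioo 0 T :=
  h.tm (ct_mem h.s0.le t)

lemma zero_of (h : Dt T E Ω u p ρ κ a s m ζ) {y : V} (hy : 1 / 4 < ‖y - c0‖) : ζ y = 0 :=
  image_eq_zero_of_notMem_tsupport (h.ts y hy.le)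

lemma cu (h : Dt T E Ω u p ρ κ a s m ζ) (i : Fin 3) : CO T Ω (fun t y => u t y i) :=
  (contDiff_apply ℝ ℝ i).comp_contDiffOn h.sol.smooth_u

lemma cp (h : Dt T E Ω u p ρ κ a s m ζ) : CO T Ω p := h.sol.smooth_p

lemma xbΩ (h : Dt T E Ω u p ρ κ a s m ζ) : xb ρ ∈ Ω := by
  refine h.sub _ ?_
  rw [xb_norm h.ρ0.le]
  linarith [h.hi, h.κ0]

lemma jU (h : Dt T E Ω u p ρ κ a s m ζ) (i : Fin 3) : JJ (UU u a s ζ i) := by
  have h1 : CO T univ (fun t y => ζ y • u t y i) :=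
    cut_smooth_on (w := fun t y => u t y i) h.sol.openO (h.cu i) h.sm h.tsub
  exact pz_jj h1 (fun t y hy => by simp only [h.zero_of hy, zero_smul]) (ct_cont a s) h.ctT

lemma jQ (h : Dt T E Ω u p ρ κ a s m ζ) : JJ (QQ p ρ a s ζ) := by
  have h0 : CO T Ω (fun t y => p t y - p t (xb ρ)) := by
    refine ContDiffOn.sub h.cp ?_
    have h2 : ContDiffOn ℝ ∞ (fun z : ℝ × V => ((z.1, xb ρ) : ℝ × V)) (Ioo 0 T ×ˢ Ω) :=
      (contDiff_fst.prodMk contDiff_const).contDiffOn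
    exact ContDiffOn.comp (g := fun z : ℝ × V => p z.1 z.2) h.cp h2
      (fun z hz => ⟨hz.1, h.xbΩ⟩)
  have h1 : CO T univ (fun t y => ζ y • (p t y - p t (xb ρ))) :=
    cut_smooth_on (w := fun t y => p t y - p t (xb ρ)) h.sol.openO h0 h.sm h.tsub
  exact pz_jj h1 (fun t y hy => by simp only [h.zero_of hy, zero_smul]) (ct_cont a s) h.ctT

lemma Ulc (h : Dt T E Ω u p ρ κ a s m ζ) (i : Fin 3) (t : ℝ) {x : V} (hx : x ∈ ZZ (ρ + κ)) :
    UU u a s ζ i t =ᶠ[𝓝 x] fun y => (fun z => u (ct a s t) z i) (y - fl3 x) :=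
  pz_cut (f := fun z => u (ct a s t) z i) h.on (by linarith [h.hi]) hx

lemma Qlc (h : Dt T E Ω u p ρ κ a s m ζ) (t : ℝ) {x : V} (hx : x ∈ ZZ (ρ + κ)) :
    QQ p ρ a s ζ t =ᶠ[𝓝 x] fun y => (fun z => p (ct a s t) z - p (ct a s t) (xb ρ)) (y - fl3 x) :=
  pz_cut (f := fun z => p (ct a s t) z - p (ct a s t) (xb ρ)) h.on (by linarith [h.hi]) hx

lemma Uval (h : Dt T E Ω u p ρ κ a s m ζ) (i : Fin 3) (t : ℝ) {x : V} (hx : x ∈ ZZ (ρ + κ)) :
    UU u a s ζ i t x = u (ct a s t) (fr3 x) i := (h.Ulc i t hx).self_of_nhds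

lemma Upd (h : Dt T E Ω u p ρ κ a s m ζ) (i : Fin 3) (t : ℝ) {x : V} (hx : x ∈ ZZ (ρ + κ))
    (j : Fin 3) : pd j (UU u a s ζ i t) x = pd j (fun z => u (ct a s t) z i) (fr3 x) :=
  pd_loc_at (h.Ulc i t hx) j

lemma Upd2 (h : Dt T E Ω u p ρ κ a s m ζ) (i : Fin 3) (t : ℝ) {x : V} (hx : x ∈ ZZ (ρ + κ))
    (j : Fin 3) :
    pd j (pd j (UU u a s ζ i t)) x = pd j (pd j (fun z => u (ct a s t) z i)) (fr3 x) :=
  pd_loc_at (pd_loc (h.Ulc i t hx) j) j

lemma Qpd (h : Dt T E Ω u p ρ κ a s m ζ) (t : ℝ) {x : V} (hx : x ∈ ZZ (ρ + κ))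
    (j : Fin 3) : pd j (QQ p ρ a s ζ t) x = pd j (p (ct a s t)) (fr3 x) := by
  rw [pd_loc_at (f := fun z => p (ct a s t) z - p (ct a s t) (xb ρ)) (h.Qlc t hx) j,
    pd_sub_const]
  rfl

lemma frΩ (h : Dt T E Ω u p ρ κ a s m ζ) {x : V} (hx : x ∈ ZZ (ρ + κ)) : fr3 x ∈ Ω := by
  refine h.sub _ ?_
  have h1 : Nn x < ρ + κ := hx
  have h2 : Nn x ≤ 1 / 4 := by linarith [h.hi]
  exact h2

/-- The momentum equation. -/
lemma mo (h : Dt T E Ω u p ρ κ a s m ζ) {t : ℝ} (ht : t ∈ Ioo 0 T) {y : V} (hy : y ∈ Ω)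
    (i : Fin 3) : deriv (fun s => u s y i) t = ∑ j, pd j (pd j (fun z => u t z i)) y
      - ∑ j, u t y j * pd j (fun z => u t z i) y - pd i (p t) y := by
  have h1 := h.sol.momentum t ht y hy i
  linarith

lemma mom_eq (h : Dt T E Ω u p ρ κ a s m ζ) (t : ℝ) {x : V} (hx : x ∈ ZZ (ρ + κ)) (i : Fin 3) :
    mom (UU u a s ζ) (QQ p ρ a s ζ) i t x = deriv (fun s => u s (fr3 x) i) (ct a s t) := by
  rw [h.mo (h.ctT t) (h.frΩ hx) i]
  unfold mom lap
  rw [h.Qpd t hx i]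
  congr 2
  · exact Finset.sum_congr rfl fun j _ => h.Upd2 i t hx j
  · exact Finset.sum_congr rfl fun j _ => by rw [h.Uval j t hx, h.Upd i t hx j]

lemma hdu (h : Dt T E Ω u p ρ κ a s m ζ) {t : ℝ} (ht : t ∈ Icc 0 s) {y : V} (hy : y ∈ Ω)
    (i : Fin 3) : HasDerivAt (fun τ => u (a + τ) y i) (deriv (fun s => u s y i) (a + t)) t := by
  have h1 : a + t ∈ Ioo 0 T := h.tm ⟨by linarith [ht.1], by linarith [ht.2]⟩
  exact ((h.cu i).hd h.sol.openO h1 hy).comp_const_add a t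

lemma evo (h : Dt T E Ω u p ρ κ a s m ζ) {t : ℝ} (ht : t ∈ Ioo 0 s) {x : V}
    (hx : x ∈ ZZ (ρ + κ)) (i : Fin 3) :
    HasDerivAt (fun τ => UU u a s ζ i τ x) (mom (UU u a s ζ) (QQ p ρ a s ζ) i t x) t := by
  rw [h.mom_eq t hx i, ct_eq ⟨ht.1.le, ht.2.le⟩]
  refine (h.hdu ⟨ht.1.le, ht.2.le⟩ (h.frΩ hx) i).congr_of_eventuallyEq ?_
  filter_upwards [Ioo_mem_nhds ht.1 ht.2] with τ hτ
  rw [h.Uval i τ hx, ct_eq ⟨hτ.1.le, hτ.2.le⟩]

lemma prs (h : Dt T E Ω u p ρ κ a s m ζ) (t : ℝ) {x : V} (hx : x ∈ ZZ (ρ + κ)) :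
    ∑ i, pd i (mom (UU u a s ζ) (QQ p ρ a s ζ) i t) x = 0 := by
  have h1 : ∀ i, mom (UU u a s ζ) (QQ p ρ a s ζ) i t =ᶠ[𝓝 x]
      fun y => (fun z => deriv (fun s => u s z i) (ct a s t)) (y - fl3 x) := by
    intro i
    have h2 : Nn x < 1 / 2 := by
      have h3 : Nn x < ρ + κ := hx
      linarith [h.hi]
    filter_upwards [(ZZ_open (ρ + κ)).mem_nhds hx, fr3_near h2] with y hy hy2
    rw [h.mom_eq t hy i, hy2]
  have h2 : ∀ i, pd i (mom (UU u a s ζ) (QQ p ρ a s ζ) i t) x =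
      deriv (fun s => pd i (fun z => u s z i) (fr3 x)) (ct a s t) := by
    intro i
    rw [pd_loc_at (f := fun z => deriv (fun s => u s z i) (ct a s t)) (h1 i) i]
    exact ((h.cu i).comm h.sol.openO (h.ctT t) (h.frΩ hx) i).symm
  rw [Finset.sum_congr rfl fun i _ => h2 i]
  have h3 : HasDerivAt (fun s => ∑ i, pd i (fun z => u s z i) (fr3 x))
      (∑ i, deriv (fun s => pd i (fun z => u s z i) (fr3 x)) (ct a s t)) (ct a s t) :=
    HasDerivAt.fun_sum fun i _ => ((h.cu i).pd h.sol.openO i).hd h.sol.openO (h.ctT t) (h.frΩ hx)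
  have h4 : (fun s => ∑ i, pd i (fun z => u s z i) (fr3 x)) =ᶠ[𝓝 (ct a s t)] fun _ => 0 := by
    filter_upwards [Ioo_mem_nhds (h.ctT t).1 (h.ctT t).2] with τ hτ
    exact h.sol.divfree τ hτ _ (h.frΩ hx)
  have h5 := h4.symm.hasDerivAt_iff.1 (hasDerivAt_const _ _)
  exact h3.unique h5

lemma dvf (h : Dt T E Ω u p ρ κ a s m ζ) (t : ℝ) {x : V} (hx : x ∈ ZZ (ρ + κ)) :
    ∑ i, pd i (UU u a s ζ i t) x = 0 := by
  rw [Finset.sum_congr rfl fun i _ => h.Upd i t hx i]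
  exact h.sol.divfree _ (h.ctT t) _ (h.frΩ hx)

/-! ### The pressure -/

lemma PI_LL (q : ℝ → V → ℝ) : PI q = LL (fun _ _ => 0) (fun _ s => s) (fun t => t) q := by
  funext t x
  unfold PI LL
  simp only [P_neg le_rfl]

lemma PI_sp {q : ℝ → V → ℝ} (hq : JJ q) (t : ℝ) : SP (PI q t) := by
  rw [PI_LL]
  exact LL_sp continuous_const continuous_snd continuous_id hq t

lemma PI_pd {q : ℝ → V → ℝ} (hq : JJ q) (t : ℝ) (j : Fin 3) (x : V) :
    pd j (PI q t) x = ∫ τ in (0 : ℝ)..t, pd j (q τ) x := by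
  have h1 := pd_LL (α := fun _ _ => 0) (β := fun _ s => s) (a := fun t => t)
    continuous_const continuous_snd hq t j
  rw [PI_LL, h1, ← PI_LL]
  rfl

/-- the constant of the gradient bound -/
noncomputable def cK (m : ℝ) : ℝ := 5 * m + 3 * m ^ 2

lemma grad (h : Dt T E Ω u p ρ κ a s m ζ) {t : ℝ} (ht : t ∈ Icc 0 s) {x : V}
    (hx : |Nn x - ρ| ≤ κ / 2) (i : Fin 3) : |pd i (PI (QQ p ρ a s ζ) t) x| ≤ cK m := by
  have hκ := h.κ0
  have hxZ : x ∈ ZZ (ρ + κ) := by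
    show Nn x < ρ + κ
    linarith [(abs_le.1 hx).2]
  obtain ⟨y, hy⟩ : ∃ y, y = fr3 x := ⟨_, rfl⟩
  have hyΩ : y ∈ Ω := by rw [hy]; exact h.frΩ hxZ
  have hys : |‖y - c0‖ - ρ| ≤ κ := by
    rw [hy]
    refine hx.trans (by linarith)
  rw [PI_pd h.jQ]
  have hcq : Continuous fun τ => pd i (QQ p ρ a s ζ τ) x :=
    (h.jQ.pd i).c.comp (by fun_prop : Continuous fun τ : ℝ => ((τ, x) : ℝ × V))
  have key := norm_image_sub_le_of_norm_deriv_le_segment' (a := 0) (b := s)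
    (f := fun τ => (∫ σ in (0 : ℝ)..τ, pd i (QQ p ρ a s ζ σ) x) + u (a + τ) y i)
    (f' := fun τ => pd i (QQ p ρ a s ζ τ) x + deriv (fun s => u s y i) (a + τ))
    (C := 3 * m + 3 * m ^ 2) (fun τ hτ => by
      have h1 := (hcq.integral_hasStrictDerivAt 0 τ).hasDerivAt
      exact (h1.add (h.hdu hτ hyΩ i)).hasDerivWithinAt) (fun τ hτ => by
      have hτ' : τ ∈ Icc 0 s := ⟨hτ.1, hτ.2.le⟩
      have hta : a + τ ∈ Icc a (a + s) := ⟨by linarith [hτ.1], by linarith [hτ.2]⟩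
      rw [h.Qpd τ hxZ i, h.mo (h.tm hta) hyΩ i, ct_eq hτ', ← hy, Real.norm_eq_abs]
      have e : ∀ A B C : ℝ, C + (A - B - C) = A - B := fun A B C => by ring
      rw [e]
      refine (abs_sub _ _).trans ?_
      have h2 : |∑ j, pd j (pd j (fun z => u (a + τ) z i)) y| ≤ 3 * m := by
        refine (Finset.abs_sum_le_sum_abs _ _).trans ?_
        refine (Finset.sum_le_sum fun j _ => h.b2 _ hta y hys i j).trans ?_
        simp
      have h3 : |∑ j, u (a + τ) y j * pd j (fun z => u (a + τ) z i) y| ≤ 3 * m ^ 2 := by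
        refine (Finset.abs_sum_le_sum_abs _ _).trans ?_
        have h4 : ∀ j ∈ (Finset.univ : Finset (Fin 3)),
            |u (a + τ) y j * pd j (fun z => u (a + τ) z i) y| ≤ m ^ 2 := fun j _ => by
          rw [abs_mul, sq]
          exact mul_le_mul (h.b0 _ hta y hys j) (h.b1 _ hta y hys i j) (abs_nonneg _) h.m0
        refine (Finset.sum_le_sum h4).trans ?_
        simp
      linarith) t ht
  simp only [intervalIntegral.integral_same, zero_add, add_zero, Real.norm_eq_abs, sub_zero] at key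
  have k1 : (3 * m + 3 * m ^ 2) * t ≤ 3 * m + 3 * m ^ 2 := by
    have h1 : t ≤ 1 := ht.2.trans h.s1.le
    have h2 : 0 ≤ 3 * m + 3 * m ^ 2 := by
      have := h.m0
      positivity
    nlinarith
  have k2 := h.b0 (a + t) ⟨by linarith [ht.1], by linarith [ht.2]⟩ y hys i
  have k3 := h.b0 a ⟨le_rfl, by linarith [h.s0]⟩ y hys i
  have k4 : (∫ σ in (0 : ℝ)..t, pd i (QQ p ρ a s ζ σ) x) =
      ((∫ σ in (0 : ℝ)..t, pd i (QQ p ρ a s ζ σ) x) + u (a + t) y i - u a y i)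
        - u (a + t) y i + u a y i := by ring
  rw [k4]
  refine (abs_add_le _ _).trans ?_
  have k5 := abs_sub ((∫ σ in (0 : ℝ)..t, pd i (QQ p ρ a s ζ σ) x) + u (a + t) y i - u a y i)
    (u (a + t) y i)
  unfold cK
  linarith

lemma Nn_self {x : V} (h : ‖x - c0‖ < 1 / 2) : Nn x = ‖x - c0‖ := by
  unfold Nn
  rw [fr3_self h]

lemma pval (h : Dt T E Ω u p ρ κ a s m ζ) {t : ℝ} (ht : t ∈ Icc 0 s) {x : V}
    (hx : |Nn x - ρ| ≤ κ / 2) : |PI (QQ p ρ a s ζ) t x| ≤ 9 / 2 * cK m := by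
  have hκ := h.κ0
  have hcK : 0 ≤ cK m := by
    unfold cK
    have := h.m0
    positivity
  have e1 : PI (QQ p ρ a s ζ) t x = PI (QQ p ρ a s ζ) t (fr3 x) := by
    unfold PI
    refine intervalIntegral.integral_congr fun τ _ => ?_
    show QQ p ρ a s ζ τ x = QQ p ρ a s ζ τ (fr3 x)
    unfold QQ pz
    rw [fr3_fr3]
  have e2 : PI (QQ p ρ a s ζ) t (fun _ => 1 / 2 + ρ) = 0 := by
    unfold PI
    have h1 : ∀ τ, QQ p ρ a s ζ τ (fun _ => 1 / 2 + ρ) = 0 := by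
      intro τ
      unfold QQ pz
      have h2 : fr3 (fun _ => 1 / 2 + ρ) = xb ρ := by
        refine fr3_self (x := xb ρ) ?_
        rw [xb_norm h.ρ0.le]
        linarith [h.hi]
      rw [h2]
      simp only [sub_self, smul_zero]
    simp only [h1, intervalIntegral.integral_zero]
  have h1 := shell_path (F := PI (QQ p ρ a s ζ) t) (ρ := ρ) (κ := κ / 2) (L := cK m)
    (PI_sp h.jQ t).smooth (by linarith [h.hi]) (by linarith [h.lo]) (by linarith) hcK
    (fun z hz i => by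
      refine h.grad ht ?_ i
      have h2 := (abs_le.1 hz).2
      rw [Nn_self (by linarith [h.hi])]
      exact hz) (x := fr3 x) hx
  rw [e1, ← sub_zero (PI (QQ p ρ a s ζ) t (fr3 x)), ← e2]
  exact h1

/-! ### The energy -/

lemma ener (h : Dt T E Ω u p ρ κ a s m ζ) {φ₀ : V → ℝ} (h0 : SP (pz φ₀))
    (h01 : ∀ x, 0 ≤ φ₀ x ∧ φ₀ x ≤ 1) (hsp : ∀ x, 1 / 4 < ‖x - c0‖ → φ₀ x = 0) (t : ℝ) :
    ∑ i, I (fun x => (pz φ₀ x * UU u a s ζ i t x) ^ 2) ≤ E ^ 2 := by
  have hsm : ∀ i, SP (fun x => (pz φ₀ x * UU u a s ζ i t x) ^ 2) := by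
    intro i
    have h1 := h0.mul ((h.jU i).sp t)
    have h2 := h1.mul h1
    have e : (fun x => (pz φ₀ x * UU u a s ζ i t x) ^ 2) =
        fun x => pz φ₀ x * UU u a s ζ i t x * (pz φ₀ x * UU u a s ζ i t x) := by
      funext x
      exact sq _
    rw [e]
    exact h2
  have h1 : ∑ i, I (fun x => (pz φ₀ x * UU u a s ζ i t x) ^ 2) =
      ∫ x in cube, ∑ i, (pz φ₀ x * UU u a s ζ i t x) ^ 2 := by
    unfold I
    rw [integral_finsetSum]
    intro i _
    exact (hsm i).int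
  rw [h1]
  have hΩm : MeasurableSet Ω := h.sol.openO.measurableSet
  have hi : Integrable (Ω.indicator (nsq (u (ct a s t)))) := by
    rw [integrable_indicator_iff hΩm]
    exact h.sol.en_int _ (h.ctT t)
  have h2 : ∫ x in cube, ∑ i, (pz φ₀ x * UU u a s ζ i t x) ^ 2 ≤
      ∫ x in cube, Ω.indicator (nsq (u (ct a s t))) x := by
    refine setIntegral_mono_on ?_ hi.integrableOn measurableSet_Icc fun x hx => ?_
    · exact integrable_finsetSum _ fun i _ => (hsm i).int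
    · by_cases hN : 1 / 4 < Nn x
      · have h3 : pz φ₀ x = 0 := hsp _ hN
        simp only [h3, zero_mul]
        refine le_trans (by simp) (indicator_nonneg (fun y _ => ?_) x)
        exact Finset.sum_nonneg fun i _ => sq_nonneg _
      · have hN' : Nn x ≤ 1 / 4 := not_lt.1 hN
        have h3 : fr3 x = x := fr3_cube hx (by linarith)
        have h4 : x ∈ Ω := by
          refine h.sub x ?_
          have h5 : Nn x = ‖x - c0‖ := by unfold Nn; rw [h3]
          rw [← h5]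
          exact hN'
        rw [indicator_of_mem h4]
        unfold nsq
        refine Finset.sum_le_sum fun i _ => ?_
        unfold pz UU
        unfold pz
        rw [h3]
        simp only [smul_eq_mul]
        have h6 := h01 x
        have h7 := h.rg x
        have h8 : (φ₀ x * ζ x) ^ 2 ≤ 1 := by
          have h9 : φ₀ x * ζ x ≤ 1 := mul_le_one₀ h6.2 h7.1 h7.2
          have h10 : 0 ≤ φ₀ x * ζ x := mul_nonneg h6.1 h7.1
          nlinarith
        calc (φ₀ x * (ζ x * u (ct a s t) x i)) ^ 2 = (φ₀ x * ζ x) ^ 2 * u (ct a s t) x i ^ 2 := by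
              ring
          _ ≤ 1 * u (ct a s t) x i ^ 2 := mul_le_mul_of_nonneg_right h8 (sq_nonneg _)
          _ = _ := one_mul _
  refine h2.trans ?_
  refine (setIntegral_le_integral hi (ae_of_all _ fun x => ?_)).trans ?_
  · exact indicator_nonneg (fun y _ => Finset.sum_nonneg fun i _ => sq_nonneg _) x
  · rw [integral_indicator hΩm]
    exact h.sol.en _ (h.ctT t)

end Dt

/-! ### The theorem -/

lemma sv_bd {v : V → V} {y : V} {M : ℝ} (h : SV 0 v y + SV 1 v y + SV 2 v y ≤ M) (i : Fin 3) :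
    |v y i| ≤ √|M| ∧ (∀ j, |pd j (fun z => v z i) y| ≤ √|M|) ∧
      ∀ j, |pd j (pd j (fun z => v z i)) y| ≤ √|M| := by
  have n0 := Pool.Agent.TH305.DR.SV_nonneg 0 v y
  have n1 := Pool.Agent.TH305.DR.SV_nonneg 1 v y
  have n2 := Pool.Agent.TH305.DR.SV_nonneg 2 v y
  have hM : M ≤ |M| := le_abs_self M
  have e0 : SV 0 v y = ∑ i, v y i ^ 2 := rfl
  have e1 : SV 1 v y = ∑ i, ∑ j, pd j (fun z => v z i) y ^ 2 := rfl
  have e2 : SV 2 v y = ∑ i, ∑ j, ∑ k, pd k (pd j (fun z => v z i)) y ^ 2 := rfl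
  refine ⟨Real.abs_le_sqrt ?_, fun j => Real.abs_le_sqrt ?_, fun j => Real.abs_le_sqrt ?_⟩
  · have h1 := Finset.single_le_sum (f := fun i => v y i ^ 2) (s := Finset.univ)
      (fun i _ => sq_nonneg _) (Finset.mem_univ i)
    rw [← e0] at h1
    linarith
  · have h1 := Finset.single_le_sum (f := fun i => ∑ j, pd j (fun z => v z i) y ^ 2)
      (s := Finset.univ) (fun i _ => Finset.sum_nonneg fun j _ => sq_nonneg _) (Finset.mem_univ i)
    have h2 := Finset.single_le_sum (f := fun j => pd j (fun z => v z i) y ^ 2)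
      (s := Finset.univ) (fun j _ => sq_nonneg _) (Finset.mem_univ j)
    rw [← e1] at h1
    linarith
  · have h1 := Finset.single_le_sum (f := fun i => ∑ j, ∑ k, pd k (pd j (fun z => v z i)) y ^ 2)
      (s := Finset.univ) (fun i _ => Finset.sum_nonneg fun j _ =>
        Finset.sum_nonneg fun k _ => sq_nonneg _) (Finset.mem_univ i)
    have h2 := Finset.single_le_sum (f := fun j => ∑ k, pd k (pd j (fun z => v z i)) y ^ 2)
      (s := Finset.univ) (fun j _ => Finset.sum_nonneg fun k _ => sq_nonneg _) (Finset.mem_univ j)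
    have h3 := Finset.single_le_sum (f := fun k => pd k (pd j (fun z => v z i)) y ^ 2)
      (s := Finset.univ) (fun k _ => sq_nonneg _) (Finset.mem_univ j)
    rw [← e2] at h1
    linarith

lemma pd_pz_bd {φ₀ : V → ℝ} (hs : Spt φ₀) {B : ℝ} (hB : ∀ (i : Fin 3) (x : V), |pd i φ₀ x| ≤ B)
    (i : Fin 3) (x : V) : |pd i (pz φ₀) x| ≤ B := by
  rw [pd_pz hs]
  exact hB i _

/-- The shell of the periodic cutoff function. -/
lemma sh_mem {φ₀ : V → ℝ} {r₀ r₁ : ℝ} (h0 : ∀ y, r₁ < ‖y - c0‖ → φ₀ y = 0)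
    (h1 : ∀ y, ‖y - c0‖ < r₀ → φ₀ y = 1) {x : V} (hx : x ∈ Sh (pz φ₀)) :
    r₀ ≤ Nn x ∧ Nn x ≤ r₁ := by
  refine ⟨?_, ?_⟩
  · by_contra hcon
    refine hx.2 ?_
    filter_upwards [Nn_cont.continuousAt.eventually (gt_mem_nhds (not_le.1 hcon))] with y hy
    exact h1 _ hy
  · by_contra hcon
    refine hx.1 ?_
    filter_upwards [Nn_cont.continuousAt.eventually (lt_mem_nhds (not_le.1 hcon))] with y hy
    exact h0 _ hy

lemma mem_ball_c0 {y : V} {r : ℝ} : y ∈ ball c0 r ↔ ‖y - c0‖ < r := by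
  rw [mem_ball, dist_eq_norm]

theorem t_DATA : S_DATA := by
  intro T E Ω u p hT hE hS hΩ ρ κ δ M hsh
  obtain ⟨hlo, hhi, hκ, hδ, hδT, hM⟩ := hsh
  -- the cutoff functions
  obtain ⟨ζ, δ₁, hδ₁, ζs, -, ζt, ζr, ζ1, -⟩ := cutoff (K := closedBall c0 (ρ + κ))
    (Ω := ball c0 (1 / 4)) (isCompact_closedBall _ _) isOpen_ball
    (closedBall_subset_ball hhi)
  obtain ⟨φ₀, δ₂, hδ₂, φs, φc, φt, φr, φ1, -⟩ := cutoff (K := closedBall c0 (ρ - κ / 2))
    (Ω := ball c0 (ρ + κ / 2)) (isCompact_closedBall _ _) isOpen_ball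
    (closedBall_subset_ball (by linarith))
  have hφ0 : ∀ y, ρ + κ / 2 ≤ ‖y - c0‖ → φ₀ y = 0 := by
    intro y hy
    refine image_eq_zero_of_notMem_tsupport fun h => ?_
    have h1 := mem_ball_c0.1 (φt h)
    linarith
  have hφ1 : ∀ y, ‖y - c0‖ ≤ ρ - κ / 2 → φ₀ y = 1 := by
    intro y hy
    refine φ1 y (self_subset_thickening hδ₂ _ ?_)
    rw [mem_closedBall, dist_eq_norm]
    exact hy
  have hφS : Spt φ₀ := fun y hy => hφ0 y (by linarith)
  have hφsp : SP (pz φ₀) := pz_sp hφS φs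
  obtain ⟨B₁, hB₁0, hB₁⟩ := pd_bd φs φc
  have hpdc : ∀ j, HasCompactSupport (pd j φ₀) := fun j => φc.fderiv_apply ℝ (Pi.single j 1)
  have hpds : ∀ j, ContDiff ℝ ∞ (pd j φ₀) := fun j =>
    (φs.fderiv_right (m := ∞) (by norm_cast)).clm_apply contDiff_const
  have hB₂ : ∀ j, ∃ B : ℝ, 0 ≤ B ∧ ∀ (i : Fin 3) (x : V), |pd i (pd j φ₀) x| ≤ B :=
    fun j => pd_bd (hpds j) (hpdc j)
  choose B₂ hB₂0 hB₂ using hB₂
  obtain ⟨m, hm⟩ : ∃ m, m = √|M| := ⟨_, rfl⟩
  have hm0 : 0 ≤ m := by rw [hm]; exact Real.sqrt_nonneg _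
  have hcK : 0 ≤ Dt.cK m := by unfold Dt.cK; positivity
  refine ⟨pz φ₀, ρ - κ / 2, B₁ + ∑ j, B₂ j, 9 / 2 * Dt.cK m + Dt.cK m + m, min 1 (√δ), by linarith,
    by linarith, add_nonneg hB₁0 (Finset.sum_nonneg fun j _ => hB₂0 j), by positivity,
    lt_min one_pos (Real.sqrt_pos.2 hδ), ?_, ?_, ?_⟩
  · intro x hx
    have h1 : ‖x - c0‖ < ρ - κ / 2 := mem_ball_c0.1 hx
    unfold pz
    rw [fr3_self (by linarith)]
    exact hφ1 x h1.le
  · intro x hx hne
    have h1 : Nn x < ρ + κ / 2 := by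
      by_contra hcon
      exact hne (hφ0 _ (not_lt.1 hcon))
    have h2 := fr3_cube hx (by linarith)
    refine mem_ball_c0.2 ?_
    have h3 : Nn x = ‖x - c0‖ := by unfold Nn; rw [h2]
    rw [← h3]
    linarith
  · intro r hr hr1
    have hr1' : r < 1 := lt_of_lt_of_le hr1 (min_le_left _ _)
    have hrδ : r ^ 2 < δ := by
      have h1 : r < √δ := lt_of_lt_of_le hr1 (min_le_right _ _)
      calc r ^ 2 < √δ ^ 2 := pow_lt_pow_left₀ h1 hr.le two_ne_zero
        _ = δ := Real.sq_sqrt hδ.le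
    refine ⟨by linarith, fun s hs hsr => ?_⟩
    have hrr : r ^ 2 < 1 := by nlinarith
    have htm : ∀ t ∈ Icc (T - r ^ 2) (T - r ^ 2 + s), t ∈ Ioo (T - δ) T := fun t ht =>
      ⟨by linarith [ht.1], by linarith [ht.2]⟩
    have hD : Dt T E Ω u p ρ κ (T - r ^ 2) s m ζ := by
      refine
      { sol := hS
        sub := fun y hy => hΩ (by rw [mem_closedBall, dist_eq_norm]; exact hy)
        lo := hlo
        hi := hhi
        κ0 := hκ
        s0 := hs
        s1 := by linarith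
        a0 := by linarith
        aT := by linarith
        m0 := hm0
        b0 := fun t ht y hy i => ?_
        b1 := fun t ht y hy i j => ?_
        b2 := fun t ht y hy i j => ?_
        sm := ζs
        ts := fun y hy h => ?_
        rg := ζr
        on := fun y hy => ?_ }
      · rw [hm]; exact (sv_bd (hM t (htm t ht) y hy) i).1
      · rw [hm]; exact (sv_bd (hM t (htm t ht) y hy) i).2.1 j
      · rw [hm]; exact (sv_bd (hM t (htm t ht) y hy) i).2.2 j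
      · have h1 := mem_ball_c0.1 (ζt h)
        linarith
      · refine ζ1 y (self_subset_thickening hδ₁ _ ?_)
        rw [mem_closedBall, dist_eq_norm]
        exact hy.le
    refine ⟨ZZ (ρ + κ), UU u (T - r ^ 2) s ζ, QQ p ρ (T - r ^ 2) s ζ, ?_, ?_, ?_⟩
    · exact
      { opn := ZZ_open _
        sp := hφsp
        rng := fun x => φr _
        off := fun x hx => by
          have h1 : ρ + κ / 2 < Nn x := by
            have h2 : ρ + κ ≤ Nn x := not_lt.1 hx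
            linarith
          filter_upwards [Nn_cont.continuousAt.eventually (lt_mem_nhds h1)] with y hy
          exact hφ0 _ hy.le
        jU := hD.jU
        jq := hD.jQ
        dvf := fun t _ x hx => hD.dvf t hx
        evo := fun t ht x hx i => hD.evo ht hx i
        prs := fun t _ x hx => hD.prs t hx }
    · have hSh : ∀ x ∈ Sh (pz φ₀), |Nn x - ρ| ≤ κ / 2 := by
        intro x hx
        have h1 := sh_mem (r₀ := ρ - κ / 2) (r₁ := ρ + κ / 2) (fun y hy => hφ0 y hy.le)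
          (fun y hy => hφ1 y hy.le) hx
        rw [abs_le]
        exact ⟨by linarith [h1.1], by linarith [h1.2]⟩
      exact
      { dφ := fun i x => (pd_pz_bd hφS hB₁ i x).trans
          (le_add_of_nonneg_right (Finset.sum_nonneg fun j _ => hB₂0 j))
        ddφ := fun i j x => by
          rw [pd_pz hφS]
          refine (pd_pz_bd (hφS.pd j) (hB₂ j) i x).trans ?_
          have h1 := Finset.single_le_sum (f := fun j => B₂ j) (s := Finset.univ)
            (fun j _ => hB₂0 j) (Finset.mem_univ j)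
          linarith
        en := fun t _ => hD.ener hφsp φr hφS t
        sU := fun t _ x hx i => by
          have h1 := hSh x hx
          have h2 : x ∈ ZZ (ρ + κ) := by
            show Nn x < ρ + κ
            linarith [(abs_le.1 h1).2]
          rw [hD.Uval i t h2]
          have h3 := hD.b0 _ (ct_mem hs.le t) (fr3 x) (h1.trans (by linarith)) i
          linarith
        sP := fun t ht x hx => by
          have h1 := hD.pval ht (hSh x hx)
          linarith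
        sdP := fun t ht x hx i => by
          have h1 := hD.grad ht (hSh x hx) i
          linarith }
    · intro t ht x hx hne i
      have h1 : ‖x - c0‖ < 1 / 4 := mem_ball_c0.1 hx
      have h2 : Nn x = ‖x - c0‖ := Dt.Nn_self (by linarith)
      have h3 : x ∈ ZZ (ρ + κ) := by
        show Nn x < ρ + κ
        by_contra hcon
        exact hne (hφ0 _ (by
          have h4 : ρ + κ ≤ Nn x := not_lt.1 hcon
          have h5 : Nn x = ‖fr3 x - c0‖ := rfl
          rw [← h5]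
          linarith))
      rw [hD.Uval i t h3, ct_eq ht, fr3_self (by linarith)]

end Run7.h956.LS
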