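import Pool.Agent.W349.MF.OMEGA1
import Pool.Agent.Run7.h219.SL.Jet

/-!
Periodization of smooth families with compact support in the unit cube.
-/

set_option autoImplicit false

open MeasureTheory Set Metric Filter Topology
open scoped ContDiff ENNReal

namespace Run7.h956.LS

open H459R3.NS
open Pool.Agent.W349.MF (pd_congr' pd_congr_ev')
open Run7.h219.SL (JJ pdl)

/-! ### Joint smoothness on `(0, T) × O` -/

/-- Jointly smooth functions on `(0, T) × O`. -/
def CO (T : ℝ) (O : Set V) (F : ℝ → V → ℝ) : Prop :=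
  ContDiffOn ℝ ∞ (fun z : ℝ × V => F z.1 z.2) (Ioo 0 T ×ˢ O)

section co

variable {T : ℝ} {O : Set V} {F : ℝ → V → ℝ}

lemma opn (hO : IsOpen O) : IsOpen (Ioo 0 T ×ˢ O) := isOpen_Ioo.prod hO

lemma CO.mem (hO : IsOpen O) {t : ℝ} (ht : t ∈ Ioo 0 T) {x : V} (hx : x ∈ O) :
    Ioo 0 T ×ˢ O ∈ 𝓝 (t, x) := (opn hO).mem_nhds ⟨ht, hx⟩

lemma CO.diffAt (hF : CO T O F) (hO : IsOpen O) {t : ℝ} (ht : t ∈ Ioo 0 T) {x : V} (hx : x ∈ O) :
    DifferentiableAt ℝ (fun z : ℝ × V => F z.1 z.2) (t, x) :=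
  (ContDiffOn.contDiffAt hF (CO.mem hO ht hx)).differentiableAt (by norm_cast)

lemma CO.hd_t (hF : CO T O F) (hO : IsOpen O) {t : ℝ} (ht : t ∈ Ioo 0 T) {x : V} (hx : x ∈ O) :
    HasDerivAt (fun s => F s x) (fderiv ℝ (fun z : ℝ × V => F z.1 z.2) (t, x) (1, 0)) t := by
  have h2 : HasDerivAt (fun s : ℝ => ((s, x) : ℝ × V)) (1, 0) t :=
    (hasDerivAt_id t).prodMk (hasDerivAt_const t x)
  exact (hF.diffAt hO ht hx).hasFDerivAt.comp_hasDerivAt t h2

lemma CO.hd (hF : CO T O F) (hO : IsOpen O) {t : ℝ} (ht : t ∈ Ioo 0 T) {x : V} (hx : x ∈ O) :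
    HasDerivAt (fun s => F s x) (deriv (fun s => F s x) t) t :=
  (hF.hd_t hO ht hx).differentiableAt.hasDerivAt

lemma CO.dt_eq (hF : CO T O F) (hO : IsOpen O) {t : ℝ} (ht : t ∈ Ioo 0 T) {x : V} (hx : x ∈ O) :
    deriv (fun s => F s x) t = fderiv ℝ (fun z : ℝ × V => F z.1 z.2) (t, x) (1, 0) :=
  (hF.hd_t hO ht hx).deriv

lemma CO.pd_eq (hF : CO T O F) (hO : IsOpen O) {t : ℝ} (ht : t ∈ Ioo 0 T) {x : V} (hx : x ∈ O)
    (j : Fin 3) :
    pd j (F t) x = fderiv ℝ (fun z : ℝ × V => F z.1 z.2) (t, x) (0, Pi.single j 1) := by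
  have h2 : HasFDerivAt (fun y : V => ((t, y) : ℝ × V))
      (ContinuousLinearMap.inr ℝ ℝ V) x := by
    have := (hasFDerivAt_const t x).prodMk (hasFDerivAt_id (𝕜 := ℝ) x)
    exact this
  have h3 : HasFDerivAt (F t) _ x := (hF.diffAt hO ht hx).hasFDerivAt.comp x h2
  unfold pd
  rw [h3.fderiv]
  rfl

lemma co_dir (hF : CO T O F) (hO : IsOpen O) (w : ℝ × V) :
    ContDiffOn ℝ ∞ (fun z : ℝ × V => fderiv ℝ (fun z : ℝ × V => F z.1 z.2) z w)
      (Ioo 0 T ×ˢ O) :=
  (ContDiffOn.fderiv_of_isOpen hF (opn hO) (by norm_cast)).clm_apply contDiffOn_const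

lemma CO.pd (hF : CO T O F) (hO : IsOpen O) (j : Fin 3) : CO T O (fun t => pd j (F t)) := by
  refine (co_dir hF hO (0, Pi.single j 1)).congr ?_
  rintro ⟨t, x⟩ ⟨ht, hx⟩
  exact hF.pd_eq hO ht hx j

lemma CO.dt (hF : CO T O F) (hO : IsOpen O) : CO T O (fun t x => deriv (fun s => F s x) t) := by
  refine (co_dir hF hO (1, 0)).congr ?_
  rintro ⟨t, x⟩ ⟨ht, hx⟩
  exact hF.dt_eq hO ht hx

lemma CO.comm (hF : CO T O F) (hO : IsOpen O) {t : ℝ} (ht : t ∈ Ioo 0 T) {x : V} (hx : x ∈ O)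
    (j : Fin 3) : deriv (fun s => H459R3.NS.pd j (F s) x) t =
      H459R3.NS.pd j (fun y => deriv (fun s => F s y) t) x := by
  obtain ⟨H, hH⟩ : ∃ H : ℝ × V → ℝ, H = fun z => F z.1 z.2 := ⟨_, rfl⟩
  have hmem := CO.mem hO ht hx
  have hc : ContDiffAt ℝ ∞ H (t, x) := by rw [hH]; exact ContDiffOn.contDiffAt hF hmem
  have hs : IsSymmSndFDerivAt ℝ H (t, x) := by
    have hc2 : ContDiffAt ℝ 2 H (t, x) := hc.of_le (by norm_cast)
    apply hc2.isSymmSndFDerivAt
    simp [minSmoothness_of_isRCLikeNormedField]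
  have hd : DifferentiableAt ℝ (fderiv ℝ H) (t, x) :=
    (hc.fderiv_right (m := ∞) (by norm_cast)).differentiableAt (by simp)
  have e1 : ∀ a b : ℝ × V, fderiv ℝ (fun y => fderiv ℝ H y b) (t, x) a =
      fderiv ℝ (fderiv ℝ H) (t, x) a b := by
    intro a b
    rw [fderiv_clm_apply hd (differentiableAt_const _)]
    simp
  have h1 : deriv (fun s => H459R3.NS.pd j (F s) x) t =
      fderiv ℝ (fun y => fderiv ℝ H y (0, Pi.single j 1)) (t, x) (1, 0) := by
    have h2 := (hF.pd hO j).dt_eq hO ht hx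
    rw [h2]
    have h3 : (fun z : ℝ × V => H459R3.NS.pd j (F z.1) z.2) =ᶠ[𝓝 (t, x)]
        fun y => fderiv ℝ H y (0, Pi.single j 1) := by
      filter_upwards [hmem] with z hz
      rw [hH]
      exact hF.pd_eq hO hz.1 hz.2 j
    rw [h3.fderiv_eq]
  have h2 : H459R3.NS.pd j (fun y => deriv (fun s => F s y) t) x =
      fderiv ℝ (fun y => fderiv ℝ H y (1, 0)) (t, x) (0, Pi.single j 1) := by
    have h3 := (hF.dt hO).pd_eq hO ht hx j
    rw [h3]
    have h4 : (fun z : ℝ × V => deriv (fun s => F s z.2) z.1) =ᶠ[𝓝 (t, x)]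
        fun y => fderiv ℝ H y (1, 0) := by
      filter_upwards [hmem] with z hz
      rw [hH]
      exact hF.dt_eq hO hz.1 hz.2
    rw [h4.fderiv_eq]
  rw [h1, h2, e1, e1]
  exact hs _ _

lemma CO.slice (hF : CO T O F) (hO : IsOpen O) {t : ℝ} (ht : t ∈ Ioo 0 T) {x : V} (hx : x ∈ O) :
    ContDiffAt ℝ ∞ (F t) x := by
  have h2 : ContDiffAt ℝ ∞ (fun y : V => (t, y)) x := contDiffAt_const.prodMk contDiffAt_id
  exact (ContDiffOn.contDiffAt hF (CO.mem hO ht hx)).comp x h2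

end co

/-! ### The fractional part -/

/-- The fractional part of a point. -/
noncomputable def fr3 (x : V) : V := fun i => Int.fract (x i)

/-- The centre of the cube. -/
noncomputable def c0 : V := fun _ => 1 / 2

/-- The periodic distance to the centre. -/
noncomputable def Nn (x : V) : ℝ := ‖fr3 x - c0‖

lemma fr3_add (x : V) (i : Fin 3) : fr3 (x + Pi.single i 1) = fr3 x := by
  funext j
  unfold fr3
  rw [Pi.add_apply]
  by_cases h : j = i
  · subst h
    rw [Pi.single_eq_same]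
    exact Int.fract_add_one _
  · rw [Pi.single_eq_of_ne h, add_zero]

lemma fr3_fr3 (x : V) : fr3 (fr3 x) = fr3 x := by
  funext j
  exact Int.fract_fract _

lemma Nn_cont : Continuous Nn := by
  have h1 : Continuous (fun x : V => (fun i => |Int.fract (x i) - 1 / 2| : V)) := by
    refine continuous_pi fun i => ?_
    have h2 : Continuous ((fun t : ℝ => |t - 1 / 2|) ∘ Int.fract) := by
      refine ContinuousOn.comp_fract'' ?_ ?_
      · exact (Continuous.abs (by fun_prop)).continuousOn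
      · norm_num [abs_of_pos, abs_of_neg]
    exact h2.comp (continuous_apply i)
  have h3 : Nn = fun x => ‖(fun i => |Int.fract (x i) - 1 / 2| : V)‖ := by
    funext x
    unfold Nn
    refine le_antisymm ?_ ?_
    · refine (pi_norm_le_iff_of_nonneg (norm_nonneg _)).2 fun i => ?_
      refine le_trans (le_of_eq ?_) (norm_le_pi_norm _ i)
      rw [Real.norm_eq_abs, Real.norm_eq_abs, abs_abs]
      rfl
    · refine (pi_norm_le_iff_of_nonneg (norm_nonneg _)).2 fun i => ?_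
      refine le_trans (le_of_eq ?_) (norm_le_pi_norm _ i)
      rw [Real.norm_eq_abs, Real.norm_eq_abs, abs_abs]
      rfl
  rw [h3]
  exact h1.norm

/-- The integer part of a point. -/
noncomputable def fl3 (x : V) : V := fun i => (⌊x i⌋ : ℝ)

lemma fr3_eq (x : V) : fr3 x = x - fl3 x := rfl

lemma fr3_near {x : V} (h : Nn x < 1 / 2) : ∀ᶠ y in 𝓝 x, fr3 y = y - fl3 x := by
  have h1 : ∀ i, ∀ᶠ y : V in 𝓝 x, ⌊y i⌋ = ⌊x i⌋ := by
    intro i
    have h2 : |Int.fract (x i) - 1 / 2| < 1 / 2 :=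
      lt_of_le_of_lt (norm_le_pi_norm (fr3 x - c0) i) h
    rw [abs_lt] at h2
    have h3 : (⌊x i⌋ : ℝ) < x i := by
      have := Int.self_sub_floor (x i)
      linarith [h2.1]
    have h4 : x i < ⌊x i⌋ + 1 := Int.lt_floor_add_one _
    have h5 : ∀ᶠ y : V in 𝓝 x, y i ∈ Ioo (⌊x i⌋ : ℝ) (⌊x i⌋ + 1) :=
      (continuous_apply i).continuousAt.eventually (Ioo_mem_nhds h3 h4)
    filter_upwards [h5] with y hy
    rw [Int.floor_eq_iff]
    exact ⟨hy.1.le, hy.2⟩
  have h2 := eventually_all.2 h1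
  filter_upwards [h2] with y hy
  funext i
  show Int.fract (y i) = y i - ⌊x i⌋
  rw [← hy i]
  rfl

lemma fr3_self {x : V} (h : ‖x - c0‖ < 1 / 2) : fr3 x = x := by
  funext i
  have h2 : |x i - 1 / 2| < 1 / 2 := lt_of_le_of_lt (norm_le_pi_norm (x - c0) i) h
  rw [abs_lt] at h2
  exact Int.fract_eq_self.2 ⟨by linarith [h2.1], by linarith [h2.2]⟩

lemma fr3_cube {x : V} (hx : x ∈ cube) (h : Nn x < 1 / 2) : fr3 x = x := by
  refine fr3_self ?_
  rw [pi_norm_lt_iff (by norm_num)]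
  intro i
  have h2 : |Int.fract (x i) - 1 / 2| < 1 / 2 :=
    lt_of_le_of_lt (norm_le_pi_norm (fr3 x - c0) i) h
  have h3 : 0 ≤ x i := hx.1 i
  have h4 : x i ≤ 1 := hx.2 i
  rcases h4.eq_or_lt with h5 | h5
  · rw [h5, Int.fract_one] at h2
    norm_num at h2
  · have h6 : Int.fract (x i) = x i := Int.fract_eq_self.2 ⟨h3, h5⟩
    rw [h6] at h2
    exact h2

/-! ### Periodization -/

/-- The periodization. -/
noncomputable def pz (f : V → ℝ) (x : V) : ℝ := f (fr3 x)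

/-- The support lies in `closedBall c0 (1 / 4)`. -/
def Spt (f : V → ℝ) : Prop := ∀ x, 1 / 4 < ‖x - c0‖ → f x = 0

lemma Spt.ev {f : V → ℝ} (hf : Spt f) {x : V} (hx : 1 / 4 < ‖x - c0‖) :
    f =ᶠ[𝓝 x] fun _ => 0 := by
  have h1 : Continuous fun y : V => ‖y - c0‖ := by fun_prop
  filter_upwards [h1.continuousAt.eventually (lt_mem_nhds hx)] with y hy
  exact hf y hy

lemma pd_zero (j : Fin 3) (x : V) : pd j (fun _ : V => (0 : ℝ)) x = 0 := by
  unfold pd
  simp

lemma Spt.pd {f : V → ℝ} (hf : Spt f) (j : Fin 3) : Spt (pd j f) := by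
  intro x hx
  rw [pd_congr' (hf.ev hx) j, pd_zero]

lemma pz_near {f : V → ℝ} {x : V} (h : Nn x < 1 / 2) : pz f =ᶠ[𝓝 x] fun y => f (y - fl3 x) := by
  filter_upwards [fr3_near h] with y hy
  unfold pz
  rw [hy]

lemma pz_far {f : V → ℝ} (hf : Spt f) {x : V} (h : 1 / 4 < Nn x) : pz f =ᶠ[𝓝 x] fun _ => 0 := by
  filter_upwards [Nn_cont.continuousAt.eventually (lt_mem_nhds h)] with y hy
  exact hf _ hy

lemma pd_shift (f : V → ℝ) (a : V) (j : Fin 3) (x : V) :
    pd j (fun y => f (y - a)) x = pd j f (x - a) := by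
  unfold pd
  rw [fderiv_comp_sub]

lemma pd_pz {f : V → ℝ} (hf : Spt f) (j : Fin 3) : pd j (pz f) = pz (pd j f) := by
  funext x
  rcases lt_or_ge (Nn x) (1 / 2) with h | h
  · rw [pd_congr' (pz_near h) j, pd_shift]
    rfl
  · have h1 : 1 / 4 < Nn x := by linarith
    rw [pd_congr' (pz_far hf h1) j, pd_zero]
    exact (hf.pd j _ h1).symm

lemma pz_sp {f : V → ℝ} (hf : Spt f) (hs : ContDiff ℝ ∞ f) : SP (pz f) := by
  refine ⟨contDiff_iff_contDiffAt.2 fun x => ?_, fun i x => ?_⟩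
  · rcases lt_or_ge (Nn x) (1 / 2) with h | h
    · exact ContDiffAt.congr_of_eventuallyEq
        ((hs.comp (contDiff_id.sub contDiff_const)).contDiffAt) (pz_near h)
    · exact contDiffAt_const.congr_of_eventuallyEq (pz_far hf (by linarith : 1 / 4 < Nn x))
  · unfold pz
    rw [fr3_add]

lemma Spt.pdl : ∀ (l : List (Fin 3)) {f : V → ℝ}, Spt f → Spt (pdl l f)
  | [], _, hf => hf
  | j :: l, _, hf => Spt.pdl l (hf.pd j)

lemma pdl_pz : ∀ (l : List (Fin 3)) {f : V → ℝ}, Spt f → pdl l (pz f) = pz (pdl l f)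
  | [], _, _ => rfl
  | j :: l, f, hf => by
      show pdl l (H459R3.NS.pd j (pz f)) = _
      rw [pd_pz hf]
      exact pdl_pz l (hf.pd j)

lemma co_pdl {T : ℝ} {O : Set V} (hO : IsOpen O) : ∀ (l : List (Fin 3)) {F : ℝ → V → ℝ},
    CO T O F → CO T O (fun t => pdl l (F t))
  | [], _, hF => hF
  | j :: l, _, hF => co_pdl hO l (hF.pd hO j)

/-- The periodization of a smooth family with a continuous change of the time. -/
lemma pz_jj {T : ℝ} {F : ℝ → V → ℝ} (hF : CO T univ F) (hs : ∀ t, Spt (F t)) {c : ℝ → ℝ}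
    (hc : Continuous c) (hcT : ∀ t, c t ∈ Ioo 0 T) : JJ (fun t => pz (F (c t))) := by
  refine ⟨fun t => pz_sp (hs _) ?_, fun l => ?_⟩
  · exact contDiff_iff_contDiffAt.2 fun x => hF.slice isOpen_univ (hcT t) (mem_univ x)
  · have e : (fun z : ℝ × V => pdl l (pz (F (c z.1))) z.2)
        = fun z => pz (pdl l (F (c z.1))) z.2 := by
      funext z
      rw [pdl_pz l (hs _)]
    rw [e]
    have hG := co_pdl isOpen_univ l hF
    have hGs : ∀ t, Spt (pdl l (F t)) := fun t => (hs t).pdl l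
    rw [continuous_iff_continuousAt]
    rintro ⟨t, x⟩
    rcases lt_or_ge (Nn x) (1 / 2) with h | h
    · have h1 : (fun z : ℝ × V => pz (pdl l (F (c z.1))) z.2) =ᶠ[𝓝 (t, x)]
          fun z => pdl l (F (c z.1)) (z.2 - fl3 x) := by
        have h2 : ∀ᶠ z : ℝ × V in 𝓝 (t, x), fr3 z.2 = z.2 - fl3 x :=
          (continuous_snd.tendsto (t, x)).eventually (fr3_near h)
        filter_upwards [h2] with z hz
        unfold pz
        rw [hz]
      refine ContinuousAt.congr_of_eventuallyEq ?_ h1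
      have h3 : ContinuousAt (fun z : ℝ × V => pdl l (F z.1) z.2) (c t, x - fl3 x) :=
        (ContDiffOn.contDiffAt hG (CO.mem isOpen_univ (hcT t) (mem_univ _))).continuousAt
      have h4 : ContinuousAt (fun z : ℝ × V => ((c z.1, z.2 - fl3 x) : ℝ × V)) (t, x) := by
        fun_prop
      exact ContinuousAt.comp (f := fun z : ℝ × V => ((c z.1, z.2 - fl3 x) : ℝ × V))
        (g := fun z : ℝ × V => pdl l (F z.1) z.2) h3 h4
    · have h1 : (fun z : ℝ × V => pz (pdl l (F (c z.1))) z.2) =ᶠ[𝓝 (t, x)] fun _ => 0 := by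
        have h2 : ∀ᶠ z : ℝ × V in 𝓝 (t, x), 1 / 4 < Nn z.2 :=
          (Nn_cont.comp continuous_snd).continuousAt.eventually
            (lt_mem_nhds (show 1 / 4 < Nn x by linarith))
        filter_upwards [h2] with z hz
        exact hGs _ _ hz
      exact continuousAt_const.congr_of_eventuallyEq h1

end Run7.h956.LS
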