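import Pool.Agent.Run7.h956.LS.Per

/-!
Functions with bounded gradient on a shell.
-/

set_option autoImplicit false

open MeasureTheory Set Metric Filter Topology
open scoped ContDiff ENNReal

namespace Run7.h956.LS

open H459R3.NS

section

variable {F : V → ℝ} {ρ κ L : ℝ}

lemma move (hF : ContDiff ℝ ∞ F) (h4 : ρ + κ ≤ 1 / 4) (hL : 0 ≤ L)
    (hb : ∀ x, |‖x - c0‖ - ρ| ≤ κ → ∀ i, |pd i F x| ≤ L) {S : Set V} (hS : Convex ℝ S)
    (hSs : ∀ z ∈ S, |‖z - c0‖ - ρ| ≤ κ) {P Q : V} (hP : P ∈ S) (hQ : Q ∈ S) :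
    |F P - F Q| ≤ 3 / 2 * L := by
  have h1 := hS.norm_image_sub_le_of_norm_hasFDerivWithin_le (f := F) (f' := fderiv ℝ F)
    (C := 3 * L) (fun z _ => ((hF.differentiable (by norm_cast)) z).hasFDerivAt.hasFDerivWithinAt)
    (fun z hz => by
      refine ContinuousLinearMap.opNorm_le_bound _ (by positivity) fun y => ?_
      rw [Run7.h219.SL.fd_eq_sum, Real.norm_eq_abs]
      refine (Finset.abs_sum_le_sum_abs _ _).trans ?_
      have h2 : ∀ j ∈ (Finset.univ : Finset (Fin 3)), |y j * pd j F z| ≤ ‖y‖ * L := fun j _ => by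
        rw [abs_mul]
        exact mul_le_mul (norm_le_pi_norm y j) (hb z (hSs z hz) j) (abs_nonneg _) (norm_nonneg _)
      refine (Finset.sum_le_sum h2).trans (le_of_eq ?_)
      simp
      ring) hQ hP
  rw [Real.norm_eq_abs] at h1
  have h2 : ‖P - Q‖ ≤ 1 / 2 := by
    have h3 := (abs_le.1 (hSs P hP)).2
    have h5 := (abs_le.1 (hSs Q hQ)).2
    have h6 : P - Q = (P - c0) - (Q - c0) := by abel
    rw [h6]
    refine (norm_sub_le _ _).trans ?_
    linarith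
  calc |F P - F Q| ≤ 3 * L * ‖P - Q‖ := h1
    _ ≤ 3 * L * (1 / 2) := mul_le_mul_of_nonneg_left h2 (by positivity)
    _ = _ := by ring

/-- The faces of a cube. -/
def face (i : Fin 3) (b a : ℝ) : Set V := {z | z i - 1 / 2 = b ∧ ∀ j, |z j - 1 / 2| ≤ a}

lemma face_convex (i : Fin 3) (b a : ℝ) : Convex ℝ (face i b a) := by
  rintro x ⟨hx1, hx2⟩ y ⟨hy1, hy2⟩ α β hα hβ hαβ
  have e : ∀ j, (α • x + β • y) j - 1 / 2 = α * (x j - 1 / 2) + β * (y j - 1 / 2) := by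
    intro j
    simp only [Pi.add_apply, Pi.smul_apply, smul_eq_mul]
    linear_combination (1 / 2) * hαβ
  refine ⟨?_, fun j => ?_⟩
  · rw [e, hx1, hy1, ← add_mul, hαβ, one_mul]
  · rw [e]
    refine (abs_add_le _ _).trans ?_
    rw [abs_mul, abs_mul, abs_of_nonneg hα, abs_of_nonneg hβ]
    calc α * |x j - 1 / 2| + β * |y j - 1 / 2| ≤ α * a + β * a :=
          add_le_add (mul_le_mul_of_nonneg_left (hx2 j) hα) (mul_le_mul_of_nonneg_left (hy2 j) hβ)
      _ = a := by rw [← add_mul, hαβ, one_mul]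

lemma face_norm {i : Fin 3} {b a : ℝ} (hb : |b| = a) {z : V} (hz : z ∈ face i b a) :
    ‖z - c0‖ = a := by
  have ha : 0 ≤ a := by rw [← hb]; exact abs_nonneg _
  refine le_antisymm ((pi_norm_le_iff_of_nonneg ha).2 fun j => hz.2 j) ?_
  rw [← hb, ← hz.1]
  exact norm_le_pi_norm (z - c0) i

/-- A diagonal segment. -/
def diag (lo hi : ℝ) : Set V := {z | (∀ i j, z i = z j) ∧ lo ≤ z 0 - 1 / 2 ∧ z 0 - 1 / 2 ≤ hi}

lemma diag_convex (lo hi : ℝ) : Convex ℝ (diag lo hi) := by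
  rintro x ⟨hx1, hx2, hx3⟩ y ⟨hy1, hy2, hy3⟩ α β hα hβ hαβ
  have e : ∀ j, (α • x + β • y) j - 1 / 2 = α * (x j - 1 / 2) + β * (y j - 1 / 2) := by
    intro j
    simp only [Pi.add_apply, Pi.smul_apply, smul_eq_mul]
    linear_combination (1 / 2) * hαβ
  refine ⟨fun i j => ?_, ?_, ?_⟩
  · simp only [Pi.add_apply, Pi.smul_apply]
    rw [hx1 i j, hy1 i j]
  · rw [e]
    have h1 := mul_le_mul_of_nonneg_left hx2 hα
    have h2 := mul_le_mul_of_nonneg_left hy2 hβ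
    have h3 : α * lo + β * lo = lo := by rw [← add_mul, hαβ, one_mul]
    linarith
  · rw [e]
    have h1 := mul_le_mul_of_nonneg_left hx3 hα
    have h2 := mul_le_mul_of_nonneg_left hy3 hβ
    have h3 : α * hi + β * hi = hi := by rw [← add_mul, hαβ, one_mul]
    linarith

lemma diag_norm {lo hi : ℝ} (hlo : 0 ≤ lo) {z : V} (hz : z ∈ diag lo hi) :
    ‖z - c0‖ = z 0 - 1 / 2 := by
  have h0 : 0 ≤ z 0 - 1 / 2 := hlo.trans hz.2.1
  refine le_antisymm ((pi_norm_le_iff_of_nonneg h0).2 fun j => ?_) ?_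
  · show |z j - 1 / 2| ≤ _
    rw [hz.1 j 0, abs_of_nonneg h0]
  · refine (le_abs_self _).trans ?_
    exact norm_le_pi_norm (z - c0) 0

/-- The gradient is bounded on a shell: the function is bounded there. -/
lemma shell_path (hF : ContDiff ℝ ∞ F) (h4 : ρ + κ ≤ 1 / 4) (h0 : κ < ρ) (hκ : 0 ≤ κ) (hL : 0 ≤ L)
    (hb : ∀ x, |‖x - c0‖ - ρ| ≤ κ → ∀ i, |pd i F x| ≤ L) {x : V} (hx : |‖x - c0‖ - ρ| ≤ κ) :
    |F x - F (fun _ => 1 / 2 + ρ)| ≤ 9 / 2 * L := by
  obtain ⟨a, ha⟩ : ∃ a, a = ‖x - c0‖ := ⟨_, rfl⟩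
  have hx' := abs_le.1 hx
  rw [← ha] at hx'
  have ha0 : 0 < a := by linarith [hx'.1]
  have hle : ∀ j, |x j - 1 / 2| ≤ a := fun j => by rw [ha]; exact norm_le_pi_norm (x - c0) j
  obtain ⟨i, hi⟩ : ∃ i, |x i - 1 / 2| = a := by
    by_contra hcon
    push Not at hcon
    have h1 : ‖x - c0‖ < a := (pi_norm_lt_iff ha0).2 fun j => lt_of_le_of_ne (hle j) (hcon j)
    rw [← ha] at h1
    exact lt_irrefl _ h1
  obtain ⟨j, hj⟩ : ∃ j : Fin 3, j ≠ i := ⟨i + 1, by fin_cases i <;> decide⟩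
  obtain ⟨v1, hv1⟩ : ∃ v1 : V, v1 = fun k => if k = i then x i else 1 / 2 + a := ⟨_, rfl⟩
  obtain ⟨v2, hv2⟩ : ∃ v2 : V, v2 = fun _ => 1 / 2 + a := ⟨_, rfl⟩
  have hv1b : ∀ k, |v1 k - 1 / 2| ≤ a := by
    intro k
    rw [hv1]
    by_cases hk : k = i
    · simp only [hk, if_true]; exact hi.le
    · simp only [hk, if_false]
      rw [add_sub_cancel_left, abs_of_pos ha0]
  have m1 : x ∈ face i (x i - 1 / 2) a := ⟨rfl, hle⟩
  have m2 : v1 ∈ face i (x i - 1 / 2) a := ⟨by rw [hv1]; simp, hv1b⟩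
  have m3 : v1 ∈ face j a a := ⟨by rw [hv1]; simp [hj], hv1b⟩
  have m4 : v2 ∈ face j a a := ⟨by rw [hv2]; simp, fun k => by
    rw [hv2, add_sub_cancel_left, abs_of_pos ha0]⟩
  have m5 : v2 ∈ diag (min a ρ) (max a ρ) := by
    rw [hv2]
    refine ⟨fun _ _ => rfl, ?_, ?_⟩
    · rw [add_sub_cancel_left]; exact min_le_left _ _
    · rw [add_sub_cancel_left]; exact le_max_left _ _
  have m6 : (fun _ => 1 / 2 + ρ : V) ∈ diag (min a ρ) (max a ρ) := by
    refine ⟨fun _ _ => rfl, ?_, ?_⟩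
    · rw [add_sub_cancel_left]; exact min_le_right _ _
    · rw [add_sub_cancel_left]; exact le_max_right _ _
  have k1 := move hF h4 hL hb (face_convex _ _ _) (fun z hz => by
    rw [face_norm hi hz, ha]; exact hx) m1 m2
  have k2 := move hF h4 hL hb (face_convex _ _ _) (fun z hz => by
    rw [face_norm (abs_of_pos ha0) hz, ha]; exact hx) m3 m4
  have hlo : 0 ≤ min a ρ := le_min ha0.le (by linarith)
  have k3 := move hF h4 hL hb (diag_convex _ _) (fun z hz => by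
    rw [diag_norm hlo hz, abs_le]
    have h1 : ρ - κ ≤ min a ρ := le_min (by linarith [hx'.1]) (by linarith)
    have h2 : max a ρ ≤ ρ + κ := max_le (by linarith [hx'.2]) (by linarith)
    exact ⟨by linarith [hz.2.1], by linarith [hz.2.2]⟩) m5 m6
  have e : F x - F (fun _ => 1 / 2 + ρ) = (F x - F v1) + (F v1 - F v2) +
      (F v2 - F (fun _ => 1 / 2 + ρ)) := by ring
  rw [e]
  refine (abs_add_le _ _).trans ?_
  have k4 := (abs_add_le (F x - F v1) (F v1 - F v2)).trans (add_le_add k1 k2)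
  linarith

end

end Run7.h956.LS
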